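import Mathlib

open Real Finset Equiv

namespace Pool.Agent.Results.MP_89dd65_gt.FailsAtFour

/-- `a`, `b`, `c` are distinct points of the unit circle in counterclockwise cyclic order. -/
def CCW (a b c : Circle) : Prop :=
  ∃ x y z : ℝ, x < y ∧ y < z ∧ z < x + 2 * π ∧
    a = Circle.exp x ∧ b = Circle.exp y ∧ c = Circle.exp z

open Classical in
/-- The orientation cocycle of the circle. -/
noncomputable def orient (a b c : Circle) : ℝ :=
  if CCW a b c then 1 else if CCW a c b then -1 else 0

/-- The alternated product of orientation cocycles on the `n`-torus. -/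
noncomputable def Theta (n : ℕ) (θ : Fin (2 * n + 1) → Fin n → Circle) : ℝ :=
  π ^ n / ((2 * n + 1).factorial : ℝ) *
    ∑ σ : Perm (Fin (2 * n + 1)), ((Perm.sign σ : ℤ) : ℝ) *
      ∏ i : Fin n, orient (θ (σ ⟨2 * i, by omega⟩) i) (θ (σ ⟨2 * i + 1, by omega⟩) i)
        (θ (σ ⟨2 * i + 2, by omega⟩) i)

/-- The configuration `θ*`, with `k`-th coordinate of the `j`-th point equal to `ζ ^ (k j)`,
`ζ = exp (2 π i / (2 n + 1))`, `k = 1, …, n` and `j = 0, …, 2 n`. -/
noncomputable def thetaStar (n : ℕ) : Fin (2 * n + 1) → Fin n → Circle :=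
  fun j k => Circle.exp (2 * π / (2 * n + 1)) ^ (((k : ℕ) + 1) * (j : ℕ))

/-! ### The orientation cocycle on roots of unity -/

/-- twice the signed area -/
noncomputable def area (a b c : Circle) : ℝ :=
  ((b : ℂ).re - (a : ℂ).re) * ((c : ℂ).im - (a : ℂ).im) -
    ((b : ℂ).im - (a : ℂ).im) * ((c : ℂ).re - (a : ℂ).re)

lemma area_pos {a b c : Circle} (h : CCW a b c) : 0 < area a b c := by
  obtain ⟨x, y, z, hxy, hyz, hzx, rfl, rfl, rfl⟩ := h
  have e : area (Circle.exp x) (Circle.exp y) (Circle.exp z)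
      = 4 * sin ((z - y) / 2) * sin ((y - x) / 2) * sin ((z - x) / 2) := by
    simp only [area, Circle.coe_exp, Complex.exp_ofReal_mul_I_re, Complex.exp_ofReal_mul_I_im]
    have h1 : cos x * sin y - sin x * cos y = sin (y - x) := by rw [sin_sub]; ring
    have h2 : cos y * sin z - sin y * cos z = sin (z - y) := by rw [sin_sub]; ring
    have h3 : cos x * sin z - sin x * cos z = sin (z - x) := by rw [sin_sub]; ring
    have h4 : (cos y - cos x) * (sin z - sin x) - (sin y - sin x) * (cos z - cos x)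
        = sin (z - y) + sin (y - x) - sin (z - x) := by
      rw [← h1, ← h2, ← h3]; ring
    rw [h4]
    set p := (z - y) / 2 with hp
    set q := (y - x) / 2 with hq
    have e1 : z - y = 2 * p := by rw [hp]; ring
    have e2 : y - x = 2 * q := by rw [hq]; ring
    have e3 : z - x = 2 * (p + q) := by rw [hp, hq]; ring
    rw [e1, e2, e3, sin_two_mul, sin_two_mul, sin_two_mul, show 2 * (p + q) / 2 = p + q by ring,
      sin_add, cos_add]
    have s1 := sin_sq_add_cos_sq p
    have s2 := sin_sq_add_cos_sq q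
    have s1' : cos p ^ 2 = 1 - sin p ^ 2 := by linarith
    have s2' : cos q ^ 2 = 1 - sin q ^ 2 := by linarith
    ring_nf
    rw [s1', s2']
    ring
  rw [e]
  have p1 : 0 < sin ((z - y) / 2) := sin_pos_of_pos_of_lt_pi (by linarith) (by linarith)
  have p2 : 0 < sin ((y - x) / 2) := sin_pos_of_pos_of_lt_pi (by linarith) (by linarith)
  have p3 : 0 < sin ((z - x) / 2) := sin_pos_of_pos_of_lt_pi (by linarith) (by linarith)
  positivity

lemma area_swap (a b c : Circle) : area a c b = - area a b c := by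
  simp only [area]; ring

lemma orient_one {a b c : Circle} (h : CCW a b c) : orient a b c = 1 := by
  simp [orient, h]

lemma orient_neg {a b c : Circle} (h : CCW a c b) : orient a b c = -1 := by
  have h1 : ¬ CCW a b c := by
    intro h2
    have e1 := area_pos h
    have e2 := area_pos h2
    rw [area_swap] at e1
    linarith
  simp [orient, h, h1]

lemma orient_zero {a b c : Circle} (h : area a b c = 0) : orient a b c = 0 := by
  have h1 : ¬ CCW a b c := fun h2 => by have := area_pos h2; linarith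
  have h2 : ¬ CCW a c b := fun h2 => by
    have := area_pos h2; rw [area_swap] at this; linarith
  simp [orient, h1, h2]

lemma abs_orient_le (a b c : Circle) : |orient a b c| ≤ 1 := by
  unfold orient
  split_ifs <;> simp

/-- the ninth root of unity -/
noncomputable def rt (a : ℕ) : Circle := Circle.exp (2 * π * a / 9)

lemma rt_add_nine (a : ℕ) : rt (a + 9) = rt a := by
  unfold rt
  have : (2 * π * ((a + 9 : ℕ) : ℝ) / 9) = 2 * π * a / 9 + 2 * π := by push_cast; ring
  rw [this, Circle.exp_add, Circle.exp_two_pi, mul_one]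

lemma rt_mod (a : ℕ) : rt a = rt (a % 9) := by
  conv_lhs => rw [← Nat.mod_add_div a 9]
  induction a / 9 with
  | zero => simp
  | succ k ih => rw [show a % 9 + 9 * (k + 1) = a % 9 + 9 * k + 9 by ring, rt_add_nine, ih]

lemma pow_eq_rt (a : ℕ) : Circle.exp (2 * π / (2 * (4 : ℕ) + 1)) ^ a = rt a := by
  rw [← Circle.exp_nsmul]
  unfold rt
  congr 1
  rw [nsmul_eq_mul]; push_cast; ring

/-- orientation of three residues -/
def orI (a b c : ℕ) : ℤ :=
  if (a < b ∧ b < c) ∨ (b < c ∧ c < a) ∨ (c < a ∧ a < b) then 1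
  else if (a < c ∧ c < b) ∨ (c < b ∧ b < a) ∨ (b < a ∧ a < c) then -1 else 0

lemma ccw_rt {a b c : ℕ} (ha : a < 9) (hb : b < 9) (hc : c < 9)
    (h : (a < b ∧ b < c) ∨ (b < c ∧ c < a) ∨ (c < a ∧ a < b)) : CCW (rt a) (rt b) (rt c) := by
  have hpi := Real.pi_pos
  have key : ∀ u v : ℕ, u < v → 2 * π * (u : ℝ) / 9 < 2 * π * (v : ℝ) / 9 := by
    intro u v huv
    have : (u : ℝ) < v := by exact_mod_cast huv
    have : 2 * π * (u : ℝ) < 2 * π * v := by nlinarith
    linarith
  have key0 : ∀ u : ℕ, 0 ≤ 2 * π * (u : ℝ) / 9 := by intro u; positivity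
  have key9 : ∀ u : ℕ, u < 9 → 2 * π * (u : ℝ) / 9 < 2 * π := by
    intro u hu
    have := key u 9 hu
    push_cast at this
    linarith
  have per : ∀ u : ℕ, rt u = Circle.exp (2 * π * u / 9 - 2 * π) := by
    intro u
    rw [Circle.exp_sub, Circle.exp_two_pi, div_one]; rfl
  have per' : ∀ u : ℕ, rt u = Circle.exp (2 * π * u / 9 + 2 * π) := by
    intro u
    rw [Circle.exp_add, Circle.exp_two_pi, mul_one]; rfl
  rcases h with ⟨h1, h2⟩ | ⟨h1, h2⟩ | ⟨h1, h2⟩
  · refine ⟨_, _, _, key _ _ h1, key _ _ h2, ?_, rfl, rfl, rfl⟩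
    linarith [key9 c hc, key0 a]
  · refine ⟨_, _, _, ?_, key _ _ h1, ?_, per a, rfl, rfl⟩
    · linarith [key9 a ha, key0 b]
    · linarith [key _ _ h2]
  · refine ⟨_, _, _, key _ _ h2, ?_, ?_, rfl, rfl, per' c⟩
    · linarith [key9 b hb, key0 c]
    · linarith [key _ _ h1]

lemma orient_rt {a b c : ℕ} (ha : a < 9) (hb : b < 9) (hc : c < 9) :
    orient (rt a) (rt b) (rt c) = (orI a b c : ℤ) := by
  unfold orI
  split_ifs with h1 h2
  · rw [orient_one (ccw_rt ha hb hc h1)]; simp
  · rw [orient_neg (ccw_rt ha hc hb h2)]; simp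
  · rw [orient_zero]; · simp
    have : a = b ∨ b = c ∨ a = c := by omega
    rcases this with rfl | rfl | rfl <;> simp only [area] <;> ring

/-- all ways of removing one entry from a list, with alternating sign -/
def picks : List ℕ → List (ℤ × ℕ × List ℕ)
  | [] => []
  | a :: l => (1, a, l) :: (picks l).map (fun t => (-t.1, t.2.1, a :: t.2.2))

/-- sum of a list of integers -/
def lsum : List ℤ → ℤ
  | [] => 0
  | a :: l => a + lsum l

lemma lsum_map_mul (c : ℤ) (l : List (ℤ × ℕ × List ℕ)) (g : ℤ × ℕ × List ℕ → ℤ) :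
    lsum (l.map fun t => c * g t) = c * lsum (l.map g) := by
  induction l with
  | nil => simp [lsum]
  | cons a l ih => simp only [List.map_cons, lsum, ih]; ring

lemma picks_ofFn (n : ℕ) (v : Fin (n + 1) → ℕ) (g : ℕ → List ℕ → ℤ) :
    lsum ((picks (List.ofFn v)).map fun t => t.1 * g t.2.1 t.2.2)
      = ∑ p : Fin (n + 1), (-1) ^ (p : ℕ) * g (v p) (List.ofFn (v ∘ p.succAbove)) := by
  induction n generalizing g with
  | zero =>
    simp [picks, lsum, List.ofFn_succ]
  | succ n ih =>
    rw [List.ofFn_succ, picks, List.map_cons, lsum, List.map_map, Fin.sum_univ_succ]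
    refine congrArg₂ (· + ·) ?_ ?_
    · simp [Function.comp_def]
    · have h := ih (fun i => v i.succ) (fun a r => - g a (v 0 :: r))
      have e1 : lsum (List.map ((fun t => t.1 * g t.2.1 t.2.2) ∘ fun t : ℤ × ℕ × List ℕ =>
          (-t.1, t.2.1, v 0 :: t.2.2)) (picks (List.ofFn fun i => v i.succ)))
          = lsum (List.map (fun t => t.1 * - g t.2.1 (v 0 :: t.2.2))
            (picks (List.ofFn fun i => v i.succ))) := by
        congr 1
        apply List.map_congr_left
        intro t _
        simp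
      rw [e1, h]
      apply Finset.sum_congr rfl
      intro p _
      rw [List.ofFn_succ]
      simp only [Function.comp_def, Fin.succ_succAbove_zero, Fin.succ_succAbove_succ, Fin.val_succ,
        pow_succ]
      ring

lemma permSum_succ (n : ℕ) (v : Fin (n + 1) → ℕ) (F : List ℕ → ℤ) :
    ∑ σ : Perm (Fin (n + 1)), (Perm.sign σ : ℤ) * F (List.ofFn (v ∘ σ))
      = ∑ p : Fin (n + 1), (-1) ^ (p : ℕ) *
        ∑ e : Perm (Fin n), (Perm.sign e : ℤ) * F (v p :: List.ofFn (v ∘ p.succAbove ∘ e)) := by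
  rw [Finset.univ_perm_fin_succ, ← Finset.univ_product_univ]
  simp only [Finset.sum_map, Equiv.toEmbedding_apply, Finset.sum_product]
  refine Finset.sum_congr rfl fun i _ => Fin.cases ?_ (fun i => ?_) i
  · simp only [Fin.val_zero, pow_zero, one_mul, Equiv.Perm.decomposeFin.symm_sign, if_true]
    refine Finset.sum_congr rfl fun e _ => ?_
    rw [List.ofFn_succ]
    simp [Function.comp_def]
  · rw [Finset.mul_sum]
    rw [← Equiv.sum_comp (Equiv.mulLeft (i.cycleRange)) (fun e : Perm (Fin n) =>
      (-1) ^ ((i.succ : Fin (n+1)) : ℕ) * ((Perm.sign e : ℤ) *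
        F (v i.succ :: List.ofFn (v ∘ i.succ.succAbove ∘ e))))]
    refine Finset.sum_congr rfl fun e _ => ?_
    rw [List.ofFn_succ]
    have h : (-1 : ℤ) ^ (i : ℕ) = (Perm.sign i.cycleRange : ℤ) := by simp [Fin.sign_cycleRange]
    have h2 : (Perm.sign i.cycleRange : ℤ) * (Perm.sign i.cycleRange : ℤ) = 1 := by
      rw [← h, ← mul_pow]; simp
    simp only [Function.comp_def, Equiv.Perm.decomposeFin_symm_apply_zero,
      Equiv.Perm.decomposeFin.symm_sign, Equiv.Perm.decomposeFin_symm_apply_succ,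
      Equiv.coe_mulLeft, Perm.coe_mul, Perm.sign_mul, Fin.val_succ, pow_succ, h,
      Fin.succAbove_cycleRange]
    simp only [Fin.succ_ne_zero, if_false, Units.val_mul, Units.val_neg, Units.val_one]
    linear_combination ((Perm.sign e : ℤ) * F (v i.succ :: List.ofFn fun x => v ((swap 0 i.succ) (e x).succ))) * h2

/-- alternating sum over orderings of a list -/
def alt : ℕ → List ℕ → (List ℕ → ℤ) → ℤ
  | 0, _, F => F []
  | k + 1, l, F => lsum ((picks l).map fun t => t.1 * alt k t.2.2 (fun s => F (t.2.1 :: s)))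

lemma alt_eq (n : ℕ) (v : Fin n → ℕ) (F : List ℕ → ℤ) :
    ∑ σ : Perm (Fin n), (Perm.sign σ : ℤ) * F (List.ofFn (v ∘ σ)) = alt n (List.ofFn v) F := by
  induction n generalizing F with
  | zero => simp [alt]
  | succ n ih =>
    rw [permSum_succ, alt, picks_ofFn n v (fun a r => alt n r (fun s => F (a :: s)))]
    refine Finset.sum_congr rfl fun p _ => ?_
    rw [← ih]
    rfl

/-- product of `T` along a chain -/
def chainF (T : ℕ → ℕ → ℕ → ℕ → ℤ) : ℕ → ℕ → List ℕ → ℤ
  | i, x, a :: b :: l => T i x a b * chainF T (i + 1) b l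
  | _, _, [] => 1
  | _, _, [_] => 1

/-- staged evaluation of the alternating sum of `chainF` -/
def G (T : ℕ → ℕ → ℕ → ℕ → ℤ) : ℕ → ℕ → List ℕ → ℕ → ℤ
  | 0, _, _, _ => 1
  | k + 1, i, l, x => lsum ((picks l).map fun t => t.1 * lsum ((picks t.2.2).map fun u =>
      u.1 * (if T i x t.2.1 u.2.1 = 0 then 0 else T i x t.2.1 u.2.1 * G T k (i + 1) u.2.2 u.2.1)))

lemma alt_smul (n : ℕ) (l : List ℕ) (c : ℤ) (F : List ℕ → ℤ) :
    alt n l (fun s => c * F s) = c * alt n l F := by
  induction n generalizing l F with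
  | zero => simp [alt]
  | succ n ih =>
    simp only [alt, ih]
    rw [← lsum_map_mul]
    congr 1
    apply List.map_congr_left
    intro t _
    ring

lemma alt_chainF (T : ℕ → ℕ → ℕ → ℕ → ℤ) (k : ℕ) : ∀ (i x : ℕ) (l : List ℕ),
    alt (2 * k) l (chainF T i x) = G T k i l x := by
  induction k with
  | zero => intro i x l; simp [alt, chainF, G]
  | succ k ih =>
    intro i x l
    rw [show 2 * (k + 1) = 2 * k + 1 + 1 by ring]
    simp only [alt, G, chainF, alt_smul, ih]
    congr 1
    apply List.map_congr_left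
    intro t _
    congr 2
    apply List.map_congr_left
    intro u _
    split_ifs with h
    · simp [h]
    · rfl

/-! ### Tables -/

/-- orientation tables: bit `81 a + 9 b + c` of `mT k` tells whether `k a, k b, k c` are in
increasing cyclic order modulo 9 -/
def mT : ℕ → ℕ
  | 1 => 2701097802124729553577533316614531421000508698704580868759466676615586553203768477752016695472130140874275762845322496067878551096216476038523109603845256425776414587458453444122606144654916589372939024515343841280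
  | 2 => 89136227430023652572938914666648879793987307273102447980266556560081315358695026278088265470631369972774564680494547510873471794936796702431168052350963475521325002500777735934454338986670192431387505871977938401280
  | 3 => 3071919389391833126312151565053469193906880403974467220836724973782199101207923154942805152744311160721179556505711579019110437362747729053752395384900207741937747070050248754348671075382829189343292332078776076288
  | _ => 456475018530929275287801630312686650809672094467028395267306876207392263253318488194995095834335624029263007021929141826876495488665866786841878531175121326730099900347525674111442816331180885403345588287645627361280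

/-- degenerate triples -/
def zT : ℕ → ℕ
  | 3 => 2823224475425143795835689250695316780418690999816012371996587744471405696604369816312161398301903464508152617310919310991580748954901070020246880312658597176615463570755787002889065392663726951002973706298738308313102335
  | _ => 2822641790473574844786018013962680194910059561748224061096994710758710684523575715923347549627223724899667523390262327569734517893838853045532655097066718854347851779614772592985213129995572761033632667402130955210852351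

/-- lookup -/
def look (k a b c : ℕ) : ℤ :=
  bif Nat.testBit (zT k) (a * 81 + b * 9 + c) then 0
  else bif Nat.testBit (mT k) (a * 81 + b * 9 + c) then 1 else -1

lemma look_eq : ∀ k : Fin 4, ∀ a b c : Fin 9,
    orI ((k.val + 1) * a.val % 9) ((k.val + 1) * b.val % 9) ((k.val + 1) * c.val % 9)
      = look (k.val + 1) a.val b.val c.val := by
  decide +kernel

lemma look_rot : ∀ k : Fin 4, ∀ a b c : Fin 9,
    look (k.val + 1) (a + 1).val (b + 1).val (c + 1).val = look (k.val + 1) a.val b.val c.val := by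
  decide +kernel


def ksStar (i : ℕ) : ℕ := i + 1

def ksNew : ℕ → ℕ
  | 3 => 4
  | _ => 1

set_option maxRecDepth 1000000 in
lemma G_star : G (fun i => look (ksStar i)) 4 0 [1, 2, 3, 4, 5, 6, 7, 8] 0 = 1440 := by
  decide +kernel


set_option maxRecDepth 1000000 in
lemma G_new : G (fun i => look (ksNew i)) 4 0 [1, 2, 3, 4, 5, 6, 7, 8] 0 = 1536 := by
  decide +kernel

/-! ### The alternating sum over all permutations -/

/-- the product of the four factors -/
def prod4 (T : ℕ → ℕ → ℕ → ℕ → ℤ) (t : Fin 9 → ℕ) : ℤ :=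
  T 0 (t 0) (t 1) (t 2) * (T 1 (t 2) (t 3) (t 4) * (T 2 (t 4) (t 5) (t 6) * T 3 (t 6) (t 7) (t 8)))

/-- restricted chain product: only lists starting with `x` -/
def Fx (T : ℕ → ℕ → ℕ → ℕ → ℤ) (x : ℕ) : List ℕ → ℤ
  | [] => 0
  | a :: l => if a = x then chainF T 0 a l else 0

lemma Fx_ofFn (T : ℕ → ℕ → ℕ → ℕ → ℤ) (x : ℕ) (t : Fin 9 → ℕ) :
    Fx T x (List.ofFn t) = if t 0 = x then prod4 T t else 0 := by
  simp only [List.ofFn_succ, List.ofFn_zero, Fx, chainF, prod4, mul_one]
  rfl

/-- value as natural numbers -/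
def vl : Fin 9 → ℕ := fun i => i.val

lemma sum_zero (T : ℕ → ℕ → ℕ → ℕ → ℤ) :
    ∑ σ : Perm (Fin 9), (Perm.sign σ : ℤ) * (if vl (σ 0) = 0 then prod4 T (vl ∘ σ) else 0)
      = G T 4 0 [1, 2, 3, 4, 5, 6, 7, 8] 0 := by
  have h1 : ∀ σ : Perm (Fin 9), (if vl (σ 0) = 0 then prod4 T (vl ∘ σ) else 0)
      = Fx T 0 (List.ofFn (vl ∘ σ)) := by
    intro σ; rw [Fx_ofFn]; rfl
  simp only [h1]
  rw [permSum_succ 8 vl (Fx T 0), Finset.sum_eq_single 0]
  · simp only [Fin.val_zero, pow_zero, one_mul]
    have h2 : ∀ e : Perm (Fin 8), Fx T 0 (vl 0 :: List.ofFn (vl ∘ (0 : Fin 9).succAbove ∘ e))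
        = chainF T 0 0 (List.ofFn ((vl ∘ (0 : Fin 9).succAbove) ∘ e)) := by
      intro e; rfl
    simp only [h2]
    rw [alt_eq 8 (vl ∘ (0 : Fin 9).succAbove) (chainF T 0 0), ← alt_chainF]
    rfl
  · intro p _ hp
    have h3 : vl p ≠ 0 := by
      intro h; apply hp; ext; exact h
    have : ∀ e : Perm (Fin 8), Fx T 0 (vl p :: List.ofFn (vl ∘ p.succAbove ∘ e)) = 0 := by
      intro e; simp only [Fx, h3, if_false]
    simp only [this, mul_zero, Finset.sum_const_zero]
  · simp

lemma sum_rot (T : ℕ → ℕ → ℕ → ℕ → ℤ)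
    (hT : ∀ i, i < 4 → ∀ a b c : Fin 9, T i (a + 1).val (b + 1).val (c + 1).val
      = T i a.val b.val c.val) (x : Fin 9) :
    ∑ σ : Perm (Fin 9), (Perm.sign σ : ℤ) * (if σ 0 = x + 1 then prod4 T (vl ∘ σ) else 0)
      = ∑ σ : Perm (Fin 9), (Perm.sign σ : ℤ) * (if σ 0 = x then prod4 T (vl ∘ σ) else 0) := by
  rw [← Equiv.sum_comp (Equiv.mulLeft (finRotate 9))]
  refine Finset.sum_congr rfl fun σ _ => ?_
  have hs : (Perm.sign (finRotate 9) : ℤ) = 1 := by
    rw [sign_finRotate]; norm_num
  have hp : prod4 T (vl ∘ (finRotate 9 * σ : Perm (Fin 9))) = prod4 T (vl ∘ σ) := by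
    simp only [prod4, Function.comp, Perm.coe_mul, vl, finRotate_apply]
    rw [hT 0 (by norm_num), hT 1 (by norm_num), hT 2 (by norm_num), hT 3 (by norm_num)]
  simp only [Equiv.coe_mulLeft, Perm.sign_mul, Units.val_mul, hs, one_mul, hp]
  simp only [Perm.coe_mul, Function.comp, finRotate_apply, add_left_inj]

lemma sum_all (T : ℕ → ℕ → ℕ → ℕ → ℤ)
    (hT : ∀ i, i < 4 → ∀ a b c : Fin 9, T i (a + 1).val (b + 1).val (c + 1).val
      = T i a.val b.val c.val) :
    ∑ σ : Perm (Fin 9), (Perm.sign σ : ℤ) * prod4 T (vl ∘ σ)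
      = 9 * G T 4 0 [1, 2, 3, 4, 5, 6, 7, 8] 0 := by
  have hx : ∀ x : Fin 9,
      ∑ σ : Perm (Fin 9), (Perm.sign σ : ℤ) * (if σ 0 = x then prod4 T (vl ∘ σ) else 0)
        = G T 4 0 [1, 2, 3, 4, 5, 6, 7, 8] 0 := by
    intro x
    induction x using Fin.induction with
    | zero =>
      rw [← sum_zero]
      refine Finset.sum_congr rfl fun σ _ => ?_
      congr 1
      have : (σ 0 = 0) ↔ (vl (σ 0) = 0) := by
        constructor
        · intro h; rw [h]; rfl
        · intro h; ext; exact h
      simp only [this]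
    | succ i ih =>
      have : i.succ = i.castSucc + 1 := by
        ext; simp
      rw [this, sum_rot T hT]
      exact ih
  have h1 : ∀ σ : Perm (Fin 9), (Perm.sign σ : ℤ) * prod4 T (vl ∘ σ)
      = ∑ x : Fin 9, (Perm.sign σ : ℤ) * (if σ 0 = x then prod4 T (vl ∘ σ) else 0) := by
    intro σ
    rw [← Finset.mul_sum]
    simp
  simp only [h1]
  rw [Finset.sum_comm]
  simp only [hx]
  simp

/-- configurations given by powers of the ninth root of unity -/
noncomputable def conf (ks : ℕ → ℕ) : Fin (2 * 4 + 1) → Fin 4 → Circle :=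
  fun j k => rt (ks k * j)

lemma Theta_conf (ks : ℕ → ℕ) (hk : ∀ i, i < 4 → 1 ≤ ks i ∧ ks i ≤ 4) :
    Theta 4 (conf ks) = π ^ 4 / ((2 * 4 + 1).factorial : ℝ) *
      ((9 * G (fun i => look (ks i)) 4 0 [1, 2, 3, 4, 5, 6, 7, 8] 0 : ℤ) : ℝ) := by
  have hlook : ∀ i, i < 4 → ∀ a b c : Fin 9,
      orI (ks i * a.val % 9) (ks i * b.val % 9) (ks i * c.val % 9) = look (ks i) a.val b.val c.val := by
    intro i hi a b c
    obtain ⟨h1, h2⟩ := hk i hi
    have := look_eq ⟨ks i - 1, by omega⟩ a b c
    simp only [show ks i - 1 + 1 = ks i by omega] at this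
    exact this
  have hrot : ∀ i, i < 4 → ∀ a b c : Fin 9,
      look (ks i) (a + 1).val (b + 1).val (c + 1).val = look (ks i) a.val b.val c.val := by
    intro i hi a b c
    obtain ⟨h1, h2⟩ := hk i hi
    have := look_rot ⟨ks i - 1, by omega⟩ a b c
    simp only [show ks i - 1 + 1 = ks i by omega] at this
    exact this
  rw [← sum_all (fun i => look (ks i)) hrot]
  unfold Theta
  congr 1
  rw [Int.cast_sum]
  refine Finset.sum_congr rfl fun σ _ => ?_
  rw [Int.cast_mul]
  congr 1
  have hO : ∀ i, i < 4 → ∀ a b c : Fin 9,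
      orient (rt (ks i * a)) (rt (ks i * b)) (rt (ks i * c))
        = (look (ks i) a.val b.val c.val : ℝ) := by
    intro i hi a b c
    rw [rt_mod (ks i * a), rt_mod (ks i * b), rt_mod (ks i * c),
      orient_rt (Nat.mod_lt _ (by norm_num)) (Nat.mod_lt _ (by norm_num))
        (Nat.mod_lt _ (by norm_num)), hlook i hi]
  rw [Fin.prod_univ_four]
  simp only [conf, prod4]
  have e0 := hO 0 (by norm_num) (σ 0) (σ 1) (σ 2)
  have e1 := hO 1 (by norm_num) (σ 2) (σ 3) (σ 4)
  have e2 := hO 2 (by norm_num) (σ 4) (σ 5) (σ 6)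
  have e3 := hO 3 (by norm_num) (σ 6) (σ 7) (σ 8)
  push_cast
  rw [← mul_assoc, ← mul_assoc]
  refine congrArg₂ (· * ·) (congrArg₂ (· * ·) (congrArg₂ (· * ·) ?_ ?_) ?_) ?_
  · exact e0
  · exact e1
  · exact e2
  · exact e3

lemma star_eq : thetaStar 4 = conf ksStar := by
  funext j k
  simp only [thetaStar, conf, ksStar]
  exact pow_eq_rt _

lemma Theta_bdd (n : ℕ) : BddAbove (Set.range fun θ : Fin (2 * n + 1) → Fin n → Circle =>
    |Theta n θ|) := by
  refine ⟨|π ^ n / ((2 * n + 1).factorial : ℝ)| * ∑ _σ : Perm (Fin (2 * n + 1)), 1, ?_⟩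
  rintro _ ⟨θ, rfl⟩
  simp only [Theta]
  rw [abs_mul]
  gcongr
  refine (Finset.abs_sum_le_sum_abs _ _).trans (Finset.sum_le_sum fun σ _ => ?_)
  rw [abs_mul, Finset.abs_prod]
  have h1 : |((Perm.sign σ : ℤ) : ℝ)| = 1 := by
    rcases Int.units_eq_one_or (Perm.sign σ) with h | h <;> simp [h]
  rw [h1, one_mul]
  exact Finset.prod_le_one (fun _ _ => abs_nonneg _) (fun _ _ => abs_orient_le _ _ _)

/-- The supremum of `|Θ_n|` is not attained at `θ*` for `n = 4`. -/
theorem result : ∃ n : ℕ, 1 ≤ n ∧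
    |Theta n (thetaStar n)| < ⨆ θ : Fin (2 * n + 1) → Fin n → Circle, |Theta n θ| := by
  refine ⟨4, by norm_num, lt_of_lt_of_le ?_ (le_ciSup (Theta_bdd 4) (conf ksNew))⟩
  rw [star_eq, Theta_conf ksStar (by intro i hi; simp only [ksStar]; omega),
    Theta_conf ksNew (by intro i hi; interval_cases i <;> simp [ksNew]), G_star, G_new]
  have hp : 0 < π ^ 4 / ((2 * 4 + 1).factorial : ℝ) := by positivity
  rw [abs_mul, abs_mul, abs_of_pos hp]
  apply mul_lt_mul_of_pos_left _ hp
  norm_num

end Pool.Agent.Results.MP_89dd65_gt.FailsAtFour
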